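import Pool.Agent.Lib.MP_60210e_co.RH13

/-!
# Even ranks: `alpha_{2k} <= 2^{1-k}`
-/

set_option autoImplicit false

namespace Pool.Agent.Results.MP_60210e_co.EvenRanks

/-- For every `k ≥ 1` and `ε > 0`, for all large `n` the `2k`-subsets of an `n`-set can be
partitioned into at most `(2/2^k + ε) C(n,k)` complete `2k`-partite `2k`-graphs (with pairwise
disjoint nonempty classes). -/
theorem result :
    ∀ k : ℕ, 1 ≤ k → ∀ ε : ℝ, 0 < ε → ∃ N : ℕ, ∀ n : ℕ, N ≤ n →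
      ∃ m : ℕ, (m : ℝ) ≤ (2 / 2 ^ k + ε) * ((n.choose k : ℕ) : ℝ) ∧
        ∃ P : Fin m → Fin (2 * k) → Finset (Fin n),
          (∀ i : Fin m, ∀ j l : Fin (2 * k), j ≠ l → Disjoint (P i j) (P i l)) ∧
          (∀ (i : Fin m) (j : Fin (2 * k)), (P i j).Nonempty) ∧
          ∀ e : Finset (Fin n), e.card = 2 * k →
            ∃! i : Fin m, ∀ j : Fin (2 * k), (e ∩ P i j).card = 1 := by
  intro k hk
  obtain ⟨d, rfl⟩ : ∃ d, k = d + 1 := ⟨k - 1, by omega⟩
  have h : (2 : ℝ) / 2 ^ (d + 1) = (1 / 2) ^ d := by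
    rw [pow_succ, one_div, inv_pow]
    field_simp
  rw [h]
  exact Lib.MP_60210e_co.RankGaps.Good.final (by omega)
    (Lib.MP_60210e_co.RankGaps.good_even_half d)

end Pool.Agent.Results.MP_60210e_co.EvenRanks
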