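import Pool.Agent.Lib.MP_60210e_co.RH13

/-!
# Odd ranks: `alpha_{2k+1} <= 4k/2^k`, which is less than `1` for every odd rank at least `11`
-/

set_option autoImplicit false

namespace Pool.Agent.Results.MP_60210e_co.OddRanks

/-- For every `k ≥ 2` and `ε > 0`, for all large `n` the `(2k+1)`-subsets of an `n`-set can be
partitioned into at most `(4k/2^k + ε) C(n,k)` complete `(2k+1)`-partite `(2k+1)`-graphs (with
pairwise disjoint nonempty classes). The constant `4k/2^k` is `5/8` for `2k+1 = 11` and decreases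
with `k`, so it is at most `5/8` for every odd rank `≥ 11`. -/
theorem result :
    ∀ k : ℕ, 2 ≤ k → ∀ ε : ℝ, 0 < ε → ∃ N : ℕ, ∀ n : ℕ, N ≤ n →
      ∃ m : ℕ, (m : ℝ) ≤ (4 * (k : ℝ) / 2 ^ k + ε) * ((n.choose k : ℕ) : ℝ) ∧
        ∃ P : Fin m → Fin (2 * k + 1) → Finset (Fin n),
          (∀ i : Fin m, ∀ j l : Fin (2 * k + 1), j ≠ l → Disjoint (P i j) (P i l)) ∧
          (∀ (i : Fin m) (j : Fin (2 * k + 1)), (P i j).Nonempty) ∧
          ∀ e : Finset (Fin n), e.card = 2 * k + 1 →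
            ∃! i : Fin m, ∀ j : Fin (2 * k + 1), (e ∩ P i j).card = 1 := by
  intro k hk
  obtain ⟨e, rfl⟩ : ∃ e, k = e + 2 := ⟨k - 2, by omega⟩
  have h : 4 * ((e + 2 : ℕ) : ℝ) / 2 ^ (e + 2) = ((e : ℝ) + 2) * (1 / 2) ^ e := by
    rw [pow_add, one_div, inv_pow]
    push_cast
    field_simp
    ring
  rw [h]
  exact Lib.MP_60210e_co.RankGaps.Good.final (by omega)
    (Lib.MP_60210e_co.RankGaps.good_odd_half e)

end Pool.Agent.Results.MP_60210e_co.OddRanks
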